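import Mathlib
set_option autoImplicit false

/-! Induced actions on lattices of lines. -/

namespace Q31VA

universe u

/-- A criterion for finite index. -/
theorem fi_crit {G : Type u} [Group G] {X : Type u} [Finite X] (H : Subgroup G)
    (f : G → X) (h : ∀ a b, f a = f b → a⁻¹ * b ∈ H) : H.FiniteIndex := by
  have : Finite (G ⧸ H) := by
    apply Finite.of_injective (fun q : G ⧸ H => f q.out)
    intro q q' hq
    have h2 := h _ _ hq
    rw [← q.out_eq', ← q'.out_eq', QuotientGroup.eq]
    exact h2
  exact Subgroup.finiteIndex_of_finite_quotient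

section act
variable {H : Type u} [Group H] {N : Subgroup H} {X W : Type u}
  (tau : X × N ≃ H) (htau : ∀ x n, tau (x, n) = tau (x, 1) * (n : H))
  (phi : W → (N →* Multiplicative ℤ))

/-- the action on `X × W × ℤ` -/
def smulFun (g : H) (z : X × W × ℤ) : X × W × ℤ :=
  ((tau.symm (g * tau (z.1, 1))).1, z.2.1,
    z.2.2 + Multiplicative.toAdd (phi z.2.1 (tau.symm (g * tau (z.1, 1))).2))

include htau in
theorem tau_symm (x : X) (n : N) :
    tau.symm (tau (x, 1) * (n : H)) = (x, n) := by
  rw [← htau, Equiv.symm_apply_apply]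

include htau in
theorem smulFun_of {g : H} {x x' : X} {n : N} (h : g * tau (x, 1) = tau (x', 1) * n) (w : W) (q : ℤ) :
    smulFun tau phi g (x, w, q) = (x', w, q + Multiplicative.toAdd (phi w n)) := by
  simp only [smulFun, h, ← htau, Equiv.symm_apply_apply]

include htau in
theorem exists_smul (g : H) (x : X) : ∃ (x' : X) (n : N), g * tau (x, 1) = tau (x', 1) * n := by
  refine ⟨(tau.symm (g * tau (x, 1))).1, (tau.symm (g * tau (x, 1))).2, ?_⟩
  rw [← htau]
  exact (tau.apply_symm_apply _).symm

/-- the action as a homomorphism -/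
def actHom : H →* Equiv.Perm (X × W × ℤ) :=
  @MulAction.toPermHom H (X × W × ℤ) _
    { smul := smulFun tau phi
      one_smul := by
        rintro ⟨x, w, q⟩
        show smulFun tau phi 1 (x, w, q) = _
        rw [smulFun_of tau htau phi (x' := x) (n := 1) (by simp)]
        simp
      mul_smul := by
        rintro g h ⟨x, w, q⟩
        show smulFun tau phi (g * h) (x, w, q) = smulFun tau phi g (smulFun tau phi h (x, w, q))
        obtain ⟨x', n, h1⟩ := exists_smul tau htau h x
        obtain ⟨x'', n', h2⟩ := exists_smul tau htau g x'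
        rw [smulFun_of tau htau phi h1, smulFun_of tau htau phi h2,
          smulFun_of tau htau phi (x' := x'') (n := n' * n) (by
            rw [mul_assoc, h1, ← mul_assoc, h2, mul_assoc]; rfl)]
        rw [map_mul, toAdd_mul]
        congr 2
        ring }

theorem actHom_apply {g : H} {x x' : X} {n : N} (h : g * tau (x, 1) = tau (x', 1) * n) (w : W) (q : ℤ) :
    actHom tau htau phi g (x, w, q) = (x', w, q + Multiplicative.toAdd (phi w n)) :=
  smulFun_of tau htau phi h w q

end act

section coord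
variable {G₀ H : Type u} [Group G₀] [Group H] (i : G₀ →* H) (D : Subgroup G₀) (N : Subgroup H)

/-- the subgroup generated by `N` and the image -/
abbrev MM : Subgroup H := i.range ⊔ N

/-- right cosets -/
abbrev RR : Type u := Quotient (QuotientGroup.rightRel (MM i N))

noncomputable def rho (r : RR i N) : H := r.out

noncomputable def sg (x : (G₀ ⧸ D) × RR i N) : H := i x.1.out * rho i N x.2

theorem rho_spec (g : H) : g * (rho i N (Quotient.mk _ g))⁻¹ ∈ MM i N := by
  have h := Quotient.mk_out (s := QuotientGroup.rightRel (MM i N)) g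
  have h2 : QuotientGroup.rightRel (MM i N) (Quotient.out (Quotient.mk _ g)) g := h
  rw [QuotientGroup.rightRel_apply] at h2
  exact h2

variable [N.Normal] (hD : ∀ h : G₀, i h ∈ N ↔ h ∈ D)

theorem mem_MM {g : H} (hg : g ∈ MM i N) : ∃ (h : G₀) (n : N), g = i h * n := by
  obtain ⟨_, ⟨h, rfl⟩, n, hn, rfl⟩ := (Subgroup.mem_sup_of_normal_right).1 hg
  exact ⟨h, ⟨n, hn⟩, rfl⟩

include hD in
theorem sg_bij : Function.Bijective (fun x : ((G₀ ⧸ D) × RR i N) × N => sg i D N x.1 * (x.2 : H)) := by
  constructor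
  · rintro ⟨⟨p, r⟩, n⟩ ⟨⟨p', r'⟩, n'⟩ h
    simp only [sg] at h
    have key : ∀ (p : G₀ ⧸ D) (r : RR i N) (n : N),
        (Quotient.mk (QuotientGroup.rightRel (MM i N)) (i p.out * rho i N r * (n : H))) = r := by
      intro p r n
      conv_rhs => rw [← r.out_eq]
      apply Quotient.sound
      show QuotientGroup.rightRel (MM i N) _ _
      rw [QuotientGroup.rightRel_apply]
      have e : (r.out : H) * (i p.out * rho i N r * (n : H))⁻¹ =
          ((rho i N r) * (n : H)⁻¹ * (rho i N r)⁻¹) * (i p.out)⁻¹ := by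
        show rho i N r * _ = _
        group
      rw [e]
      refine (MM i N).mul_mem ?_ ((MM i N).inv_mem (Subgroup.mem_sup_left ⟨_, rfl⟩))
      exact Subgroup.mem_sup_right ((inferInstance : N.Normal).conj_mem _ (N.inv_mem n.2) _)
    have hr : r = r' := by rw [← key p r n, h, key p' r' n']
    subst hr
    have h3 : i (p'.out⁻¹ * p.out) ∈ N := by
      have e : i (p'.out⁻¹ * p.out) = rho i N r * ((n' : H) * (n : H)⁻¹) * (rho i N r)⁻¹ := by
        have : i p.out = i p'.out * rho i N r * (n' : H) * (n : H)⁻¹ * (rho i N r)⁻¹ := by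
          rw [← h]; group
        rw [map_mul, map_inv, this]
        group
      rw [e]
      exact (inferInstance : N.Normal).conj_mem _ (N.mul_mem n'.2 (N.inv_mem n.2)) _
    have hp : p' = p := by
      rw [← p.out_eq', ← p'.out_eq', QuotientGroup.eq]
      exact (hD _).1 h3
    subst hp
    have hn : (n : H) = n' := mul_left_cancel h
    rw [Subtype.ext hn]
  · intro g
    obtain ⟨h, n, hg⟩ := mem_MM i N (rho_spec i N g)
    set r : RR i N := Quotient.mk _ g with hr
    obtain ⟨k, hk⟩ : ∃ k ∈ D, h = (QuotientGroup.mk h : G₀ ⧸ D).out * k := by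
      refine ⟨((QuotientGroup.mk h : G₀ ⧸ D).out)⁻¹ * h, ?_, by group⟩
      rw [← QuotientGroup.eq]
      exact Quotient.out_eq' _
    have hkN : i k ∈ N := (hD k).2 hk.1
    refine ⟨((QuotientGroup.mk h, r), ⟨(rho i N r)⁻¹ * (i k * n) * rho i N r, ?_⟩), ?_⟩
    · have := (inferInstance : N.Normal).conj_mem _ (N.mul_mem hkN n.2) (rho i N r)⁻¹
      rwa [inv_inv] at this
    · simp only [sg]
      have e1 : i h = i (QuotientGroup.mk h : G₀ ⧸ D).out * i k := by
        conv_lhs => rw [hk.2]
        rw [map_mul]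
      have e2 : g = i h * n * rho i N r := by rw [← hg]; group
      rw [e2, e1]
      group

/-- the bijection -/
noncomputable def tau : ((G₀ ⧸ D) × RR i N) × N ≃ H := Equiv.ofBijective _ (sg_bij i D N hD)

theorem tau_apply (x : (G₀ ⧸ D) × RR i N) (n : N) : tau i D N hD (x, n) = sg i D N x * (n : H) := rfl

theorem tau_mul (x : (G₀ ⧸ D) × RR i N) (n : N) :
    tau i D N hD (x, n) = tau i D N hD (x, 1) * (n : H) := by
  rw [tau_apply, tau_apply]; simp

/-- the coset of the identity -/
def r0 : RR i N := Quotient.mk _ 1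

theorem rho_r0 : ∃ (h : G₀) (n : N), rho i N (r0 i N) = i h * n := by
  have h := rho_spec i N 1
  rw [one_mul] at h
  have h2 := (MM i N).inv_mem h
  rw [inv_inv] at h2
  exact mem_MM i N h2

include hD in
theorem exists_base : ∃ p : G₀ ⧸ D, sg i D N (p, r0 i N) ∈ N := by
  obtain ⟨h, n, h1⟩ := rho_r0 i N
  refine ⟨QuotientGroup.mk h⁻¹, ?_⟩
  set p : G₀ ⧸ D := QuotientGroup.mk h⁻¹ with hp
  have h2 : p.out⁻¹ * h⁻¹ ∈ D := by
    rw [← QuotientGroup.eq]; exact p.out_eq'
  have h3 : i (p.out * h) ∈ N := by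
    have h4 := (hD _).2 h2
    have h5 := (inferInstance : N.Normal).conj_mem _ h4 (i p.out)
    have e : i p.out * i (p.out⁻¹ * h⁻¹) * (i p.out)⁻¹ = (i (p.out * h))⁻¹ := by
      rw [map_mul, map_mul, map_inv, map_inv]; group
    rw [e] at h5
    exact (N.inv_mem_iff).1 h5
  show i p.out * rho i N (r0 i N) ∈ N
  rw [h1, ← mul_assoc, ← map_mul]
  exact N.mul_mem h3 n.2

end coord

end Q31VA
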