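import Mathlib
import Pool.Agent.Q31.VA.A
set_option autoImplicit false

/-! The compatible pair of actions of the two factors. -/

namespace Q31VA

universe u

section line
variable {G₀ H : Type u} [Group G₀] [Group H] (i : G₀ →* H) (D : Subgroup G₀) (N : Subgroup H)
  [N.Normal] (hD : ∀ h : G₀, i h ∈ N ↔ h ∈ D)

/-- the restriction of the action to `G₀` -/
theorem restrict_eq [D.Normal] {h : G₀} {p : G₀ ⧸ D} {k : G₀} (_hk : k ∈ D)
    (e : h * p.out = ((QuotientGroup.mk h : G₀ ⧸ D) * p).out * k) (r : RR i N) :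
    i h * tau i D N hD ((p, r), 1) = tau i D N hD (((QuotientGroup.mk h : G₀ ⧸ D) * p, r), 1) *
      ((rho i N r)⁻¹ * i k * rho i N r) := by
  rw [tau_apply, tau_apply]
  simp only [sg, Subgroup.coe_one, mul_one]
  have e2 : i h * i p.out = i (((QuotientGroup.mk h : G₀ ⧸ D) * p).out) * i k := by
    rw [← map_mul, e, map_mul]
  rw [← mul_assoc, e2]
  group

end line

section pair
variable {G₀ G₁ G₂ : Type u} [Group G₀] [Group G₁] [Group G₂] (i₁ : G₀ →* G₁) (i₂ : G₀ →* G₂)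
  (d : G₀) (N₁ : Subgroup G₁) (N₂ : Subgroup G₂) [N₁.Normal] [N₂.Normal]
  (hD₁ : ∀ h : G₀, i₁ h ∈ N₁ ↔ h ∈ Subgroup.zpowers d)
  (hD₂ : ∀ h : G₀, i₂ h ∈ N₂ ↔ h ∈ Subgroup.zpowers d)
  {J : Type u} (f₁ : J → (N₁ →* Multiplicative ℤ)) (f₂ : J → (N₂ →* Multiplicative ℤ))

/-- the conjugate of the amalgamated generator -/
def cj {H : Type u} [Group H] (i : G₀ →* H) (N : Subgroup H) [N.Normal]
    (hD : ∀ h : G₀, i h ∈ N ↔ h ∈ Subgroup.zpowers d) (g : H) : N :=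
  ⟨g⁻¹ * i d * g, by
    have := (inferInstance : N.Normal).conj_mem _ ((hD d).2 (Subgroup.mem_zpowers d)) g⁻¹
    rwa [inv_inv] at this⟩

/-- the weights -/
noncomputable def wt {H : Type u} [Group H] (i : G₀ →* H) (N : Subgroup H) [N.Normal]
    (hD : ∀ h : G₀, i h ∈ N ↔ h ∈ Subgroup.zpowers d) (f : J → (N →* Multiplicative ℤ))
    (j : J) (r : RR i N) : ℤ := Multiplicative.toAdd (f j (cj d i N hD (rho i N r)))

/-- the twisted functionals of the first factor -/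
noncomputable def ph₁ (w : J × RR i₂ N₂) : N₁ →* Multiplicative ℤ where
  toFun n := (f₁ w.1 n) ^ (wt d i₂ N₂ hD₂ f₂ w.1 w.2)
  map_one' := by simp
  map_mul' a b := by rw [map_mul, mul_zpow]

noncomputable def ph₂ (w : J × RR i₁ N₁) : N₂ →* Multiplicative ℤ where
  toFun n := (f₂ w.1 n) ^ (wt d i₁ N₁ hD₁ f₁ w.1 w.2)
  map_one' := by simp
  map_mul' a b := by rw [map_mul, mul_zpow]

abbrev PP0 : Type u := G₀ ⧸ (Subgroup.zpowers d)

/-- the common set -/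
abbrev ZZ (J : Type u) : Type u := ((PP0 d × RR i₁ N₁) × (J × RR i₂ N₂) × ℤ)

/-- the swap -/
def sw (J : Type u) : ((PP0 d × RR i₂ N₂) × (J × RR i₁ N₁) × ℤ) ≃ ZZ i₁ i₂ d N₁ N₂ J where
  toFun z := ((z.1.1, z.2.1.2), (z.2.1.1, z.1.2), z.2.2)
  invFun z := ((z.1.1, z.2.1.2), (z.2.1.1, z.1.2), z.2.2)
  left_inv _ := rfl
  right_inv _ := rfl

noncomputable def nu₁ : G₁ →* Equiv.Perm (ZZ i₁ i₂ d N₁ N₂ J) :=
  actHom (tau i₁ _ N₁ hD₁) (tau_mul i₁ _ N₁ hD₁) (ph₁ i₂ d N₁ N₂ hD₂ f₁ f₂)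

noncomputable def nu₂ : G₂ →* Equiv.Perm (ZZ i₁ i₂ d N₁ N₂ J) :=
  ((sw i₁ i₂ d N₁ N₂ J).permCongrHom : _ →* _).comp
    (actHom (tau i₂ _ N₂ hD₂) (tau_mul i₂ _ N₂ hD₂) (ph₂ i₁ d N₁ N₂ hD₁ f₁ f₂))

theorem nu₁_apply {g : G₁} {x x' : PP0 d × RR i₁ N₁} {n : N₁}
    (h : g * sg i₁ _ N₁ x = sg i₁ _ N₁ x' * n) (j : J) (r : RR i₂ N₂) (q : ℤ) :
    nu₁ i₁ i₂ d N₁ N₂ hD₁ hD₂ f₁ f₂ g (x, (j, r), q) =
      (x', (j, r), q + wt d i₂ N₂ hD₂ f₂ j r * Multiplicative.toAdd (f₁ j n)) := by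
  rw [nu₁, actHom_apply (x' := x') (n := n) (h := by
    rw [tau_apply, tau_apply]; simpa using h)]
  simp [ph₁]

theorem nu₂_apply {g : G₂} {p p' : PP0 d} {r r' : RR i₂ N₂} {n : N₂}
    (h : g * sg i₂ _ N₂ (p, r) = sg i₂ _ N₂ (p', r') * n) (j : J) (s : RR i₁ N₁) (q : ℤ) :
    nu₂ i₁ i₂ d N₁ N₂ hD₁ hD₂ f₁ f₂ g ((p, s), (j, r), q) =
      ((p', s), (j, r'), q + wt d i₁ N₁ hD₁ f₁ j s * Multiplicative.toAdd (f₂ j n)) := by
  have h1 : (sw i₁ i₂ d N₁ N₂ J).symm ((p, s), (j, r), q) = ((p, r), (j, s), q) := rfl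
  show (sw i₁ i₂ d N₁ N₂ J) (actHom (tau i₂ _ N₂ hD₂) (tau_mul i₂ _ N₂ hD₂) (ph₂ i₁ d N₁ N₂ hD₁ f₁ f₂) g
    ((sw i₁ i₂ d N₁ N₂ J).symm ((p, s), (j, r), q))) = _
  rw [h1, actHom_apply (x' := (p', r')) (n := n) (h := by
    rw [tau_apply, tau_apply]; simpa using h)]
  simp [ph₂, sw]

/-- compatibility -/
theorem nu_compat [(Subgroup.zpowers d).Normal] (h : G₀) :
    nu₁ i₁ i₂ d N₁ N₂ hD₁ hD₂ f₁ f₂ (i₁ h) = nu₂ i₁ i₂ d N₁ N₂ hD₁ hD₂ f₁ f₂ (i₂ h) := by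
  ext1 ⟨⟨p, s⟩, ⟨j, r⟩, q⟩
  obtain ⟨k, hk⟩ : ∃ k : ℤ, h * p.out = ((QuotientGroup.mk h : PP0 d) * p).out * d ^ k := by
    have : ((QuotientGroup.mk h : PP0 d) * p).out⁻¹ * (h * p.out) ∈ Subgroup.zpowers d := by
      rw [← QuotientGroup.eq, QuotientGroup.mk_mul]
      have e1 : ∀ x : PP0 d, (QuotientGroup.mk x.out : PP0 d) = x := fun x => Quotient.out_eq' x
      rw [e1, e1]
    obtain ⟨k, hk⟩ := Subgroup.mem_zpowers_iff.1 this
    exact ⟨k, by rw [hk]; group⟩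
  have key : ∀ {H : Type u} [Group H] (i : G₀ →* H) (N : Subgroup H) [N.Normal]
      (hD : ∀ h : G₀, i h ∈ N ↔ h ∈ Subgroup.zpowers d) (r : RR i N),
      i h * sg i _ N (p, r) = sg i _ N ((QuotientGroup.mk h : PP0 d) * p, r) *
        ((cj d i N hD (rho i N r) ^ k : N) : H) := by
    intro H _ i N _ hD r
    have h1 := restrict_eq i (Subgroup.zpowers d) N hD (h := h) (p := p) (k := d ^ k)
      (Subgroup.zpow_mem _ (Subgroup.mem_zpowers d) k) hk r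
    rw [tau_apply, tau_apply] at h1
    simp only [Subgroup.coe_one, mul_one] at h1
    rw [h1, Subgroup.coe_zpow]
    congr 1
    show _ = ((rho i N r)⁻¹ * i d * rho i N r) ^ k
    have e : (rho i N r)⁻¹ * i d * rho i N r = (rho i N r)⁻¹ * i d * (rho i N r)⁻¹⁻¹ := by
      rw [inv_inv]
    rw [e, conj_zpow, map_zpow, inv_inv]
  rw [nu₁_apply i₁ i₂ d N₁ N₂ hD₁ hD₂ f₁ f₂ (key i₁ N₁ hD₁ s) j r q,
    nu₂_apply i₁ i₂ d N₁ N₂ hD₁ hD₂ f₁ f₂ (key i₂ N₂ hD₂ r) j s q]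
  rw [map_zpow (f₁ j), map_zpow (f₂ j), toAdd_zpow, toAdd_zpow]
  simp only [wt, smul_eq_mul]
  congr 2
  ring

/-- the weight of the base point -/
theorem wt_base {H : Type u} [Group H] (i : G₀ →* H) (N : Subgroup H) [N.Normal]
    (hD : ∀ h : G₀, i h ∈ N ↔ h ∈ Subgroup.zpowers d) (hN : ∀ a b : N, a * b = b * a)
    (f : J → (N →* Multiplicative ℤ)) (j : J) [(Subgroup.zpowers d).Normal]
    (hd : ∀ m : ℤ, m ≠ 0 → d ^ m ≠ 1) :
    (f j ⟨i d, (hD d).2 (Subgroup.mem_zpowers d)⟩ = 1 → wt d i N hD f j (r0 i N) = 0) ∧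
    (f j ⟨i d, (hD d).2 (Subgroup.mem_zpowers d)⟩ ≠ 1 → wt d i N hD f j (r0 i N) ≠ 0) := by
  obtain ⟨h, n, h1⟩ := rho_r0 i N
  obtain ⟨m, hm⟩ : ∃ m : ℤ, d ^ m = h⁻¹ * d * h := by
    have := (inferInstance : (Subgroup.zpowers d).Normal).conj_mem _ (Subgroup.mem_zpowers d) h⁻¹
    rw [inv_inv] at this
    exact Subgroup.mem_zpowers_iff.1 this
  have hm0 : m ≠ 0 := by
    rintro rfl
    rw [zpow_zero] at hm
    have : d = 1 := by
      have h2 : h * (h⁻¹ * d * h) * h⁻¹ = d := by group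
      rw [← hm] at h2
      rw [← h2]; group
    exact hd 1 one_ne_zero (by rw [this, one_zpow])
  have e : cj d i N hD (rho i N (r0 i N)) = (⟨i d, (hD d).2 (Subgroup.mem_zpowers d)⟩ : N) ^ m := by
    have e1 : cj d i N hD (rho i N (r0 i N)) = n⁻¹ * (⟨i d, (hD d).2 (Subgroup.mem_zpowers d)⟩ : N) ^ m * n := by
      apply Subtype.ext
      show (rho i N (r0 i N))⁻¹ * i d * rho i N (r0 i N) = (n : H)⁻¹ * (i d) ^ m * n
      rw [h1, ← map_zpow, hm, map_mul, map_mul, map_inv]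
      group
    rw [e1, hN _ n, mul_inv_cancel_left]
  simp only [wt, e, map_zpow, toAdd_zpow, smul_eq_mul]
  constructor
  · intro h; rw [h]; simp
  · intro h h2
    rcases mul_eq_zero.1 h2 with h2 | h2
    · exact hm0 h2
    · exact h (Multiplicative.toAdd.injective h2)

/-- elements of the lattice act by translations -/
theorem conj_eq {H : Type u} [Group H] (i : G₀ →* H) (N : Subgroup H) [N.Normal] (x : PP0 d × RR i N)
    (n : N) : (n : H) * sg i _ N x = sg i _ N x *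
      ((⟨(sg i _ N x)⁻¹ * n * sg i _ N x, by
        have := (inferInstance : N.Normal).conj_mem _ n.2 (sg i _ N x)⁻¹
        rwa [inv_inv] at this⟩ : N) : H) := by
  show _ = sg i _ N x * ((sg i _ N x)⁻¹ * n * sg i _ N x)
  group

end pair

end Q31VA
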