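import Mathlib
import Pool.Agent.Q31.VA.B
set_option autoImplicit false

/-! Lattices in finitely generated virtually abelian groups adapted to a given element. -/

namespace Q31VA

universe u

theorem gcd_lemma {n : ℕ} (w : Fin n → ℤ) (hw : w ≠ 0) :
    ∃ (e : ℤ) (x b : Fin n → ℤ), e ≠ 0 ∧ w = e • x ∧ ∑ i, b i * x i = 1 := by
  set I : Ideal ℤ := Ideal.span (Set.range w) with hI
  obtain ⟨e, he⟩ := (inferInstance : I.IsPrincipal)
  have h1 : ∀ i, e ∣ w i := by
    intro i
    have : w i ∈ I := Ideal.subset_span ⟨i, rfl⟩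
    rw [he] at this
    exact Ideal.mem_span_singleton.1 this
  choose x hx using h1
  have h2 : e ∈ I := by rw [he]; exact Ideal.mem_span_singleton_self e
  rw [hI, Ideal.mem_span_range_iff_exists_fun] at h2
  obtain ⟨b, hb⟩ := h2
  have he0 : e ≠ 0 := by
    rintro rfl
    apply hw
    funext i
    rw [hx i, zero_mul]; rfl
  refine ⟨e, x, b, he0, ?_, ?_⟩
  · funext i; rw [hx i]; rfl
  · have h3 : e * ∑ i, b i * x i = e * 1 := by
      rw [mul_one, Finset.mul_sum]
      conv_rhs => rw [← hb]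
      apply Finset.sum_congr rfl
      intro i _
      rw [hx i]; ring
    exact mul_left_cancel₀ he0 h3

theorem exists_coord (A : Type u) [CommGroup A] [Group.FG A] :
    ∃ (n M : ℕ) (v : A →* Multiplicative (Fin n → ℤ)), 0 < M ∧ Function.Surjective v ∧
      ∀ a, v a = 1 → a ^ M = 1 := by
  obtain ⟨n, ι, hι, p, hp, e, ⟨f⟩⟩ := AddCommGroup.equiv_free_prod_directSum_zmod (Additive A)
  classical
  set M : ℕ := ∏ i, p i ^ e i with hM
  let v0 : Additive A →+ (Fin n → ℤ) :=
    (Finsupp.lcoeFun (R := ℤ) (M := ℤ) (α := Fin n)).toAddMonoidHom.comp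
      ((AddMonoidHom.fst _ _).comp f.toAddMonoidHom)
  have hv0 : ∀ a, v0 a = fun i => (f a).1 i := fun a => rfl
  refine ⟨n, M, AddMonoidHom.toMultiplicativeRight v0, ?_, ?_, ?_⟩
  · exact Finset.prod_pos fun i _ => pow_pos (hp i).pos _
  · intro w
    refine ⟨(f.symm (Finsupp.equivFunOnFinite.symm (Multiplicative.toAdd w), 0)).toMul, ?_⟩
    apply Multiplicative.toAdd.injective
    show v0 (f.symm _) = _
    rw [hv0, AddEquiv.apply_symm_apply]
    rfl
  · intro a ha
    have h1 : v0 (Additive.ofMul a) = 0 := congrArg Multiplicative.toAdd ha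
    have h2 : (f (Additive.ofMul a)).1 = 0 := by
      ext i
      exact congrFun h1 i
    have h3 : f (Additive.ofMul (a ^ M)) = 0 := by
      rw [ofMul_pow, map_nsmul]
      apply Prod.ext
      · rw [Prod.smul_fst, h2, smul_zero]; rfl
      · rw [Prod.smul_snd]
        ext i
        rw [DFinsupp.smul_apply]
        show M • (f (Additive.ofMul a)).2 i = 0
        rw [nsmul_eq_mul]
        have : ((M : ℕ) : ZMod (p i ^ e i)) = 0 := by
          rw [ZMod.natCast_eq_zero_iff]
          exact Finset.dvd_prod_of_mem _ (Finset.mem_univ i)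
        rw [this, zero_mul]
    have h4 : Additive.ofMul (a ^ M) = 0 := by
      rw [← f.map_eq_zero_iff]; exact h3
    exact h4

/-- a linear functional on the coordinates -/
def lin {n : ℕ} (b : Fin n → ℤ) : Multiplicative (Fin n → ℤ) →* Multiplicative ℤ where
  toFun w := Multiplicative.ofAdd (∑ i, b i * (Multiplicative.toAdd w) i)
  map_one' := by simp
  map_mul' x y := by
    rw [← ofAdd_add, ← Finset.sum_add_distrib]
    congr 1
    apply Finset.sum_congr rfl
    intro i _
    rw [toAdd_mul, Pi.add_apply]; ring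

theorem lattice (G A : Type u) [Group G] [CommGroup A] [Group.FG A] (ι : A →* G)
    (hι : Function.Injective ι) (hn : ι.range.Normal) (hfi : ι.range.FiniteIndex) (c : G)
    (hc : ∀ m : ℤ, m ≠ 0 → c ^ m ≠ 1) :
    ∃ m₁ : ℕ, 0 < m₁ ∧ ∀ m : ℕ, 0 < m → m₁ ∣ m → ∃ N : Subgroup G, N.Normal ∧ N.FiniteIndex ∧
      (∀ a b : N, a * b = b * a) ∧ ∃ hm : c ^ m ∈ N,
      (∀ x ∈ N, ∀ i j : ℤ, i ≠ 0 → x ^ i = c ^ j → x ∈ Subgroup.zpowers (c ^ m)) ∧
      ∃ (n : ℕ) (g : Fin n → (N →* Multiplicative ℤ)) (fs : N →* Multiplicative ℤ),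
        (∀ k, g k ⟨c ^ m, hm⟩ = 1) ∧ fs ⟨c ^ m, hm⟩ ≠ 1 ∧ ∀ x, (∀ k, g k x = 1) → fs x = 1 → x = 1 := by
  obtain ⟨n, M, v, hM, hv, hT⟩ := exists_coord A
  set k0 := ι.range.index with hk0
  have hk0' : k0 ≠ 0 := hfi.index_ne_zero
  refine ⟨k0 * M, Nat.mul_pos (Nat.pos_of_ne_zero hk0') hM, ?_⟩
  rintro m hm ⟨t, rfl⟩
  have ht : t ≠ 0 := by rintro rfl; simp at hm
  obtain ⟨a0, ha0⟩ : ∃ a0, ι a0 = c ^ (k0 * t) := by
    have : c ^ (k0 * t) ∈ ι.range := by
      rw [pow_mul]
      exact Subgroup.pow_mem _ (Subgroup.pow_index_mem _ _) _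
    exact this
  have hva : Multiplicative.toAdd (v a0) ≠ 0 := by
    intro h
    have h1 : v a0 = 1 := h
    have h2 := congrArg ι (hT a0 h1)
    rw [map_pow, ha0, map_one, ← pow_mul] at h2
    have h3 := hc ((k0 * t * M : ℕ) : ℤ) (by
      have := hM.ne'
      positivity)
    rw [zpow_natCast] at h3
    exact h3 h2
  obtain ⟨e, w, b, he, hw, hb⟩ := gcd_lemma _ hva
  obtain ⟨b0, hb0⟩ := hv (Multiplicative.ofAdd w)
  have hb0' : v (b0 ^ e) = v a0 := by
    rw [map_zpow, hb0, ← ofAdd_zsmul, ← hw]; rfl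
  have hb1 : b0 ^ (e * M) = a0 ^ M := by
    have h1 : (b0 ^ e * a0⁻¹) ^ M = 1 := hT _ (by rw [map_mul, map_inv, hb0', mul_inv_cancel])
    rw [mul_pow, inv_pow, mul_inv_eq_one, ← zpow_natCast, ← zpow_mul] at h1
    exact h1
  set L : ℤ := e * M with hL
  have hL0 : L ≠ 0 := mul_ne_zero he (by exact_mod_cast hM.ne')
  set K : Subgroup A := (zpowGroupHom L).range with hK
  have hKfi : K.FiniteIndex := by
    have : Finite (A ⧸ K) := by
      apply CommGroup.finite_of_fg_isMulTorsion
      intro x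
      obtain ⟨a, rfl⟩ := QuotientGroup.mk'_surjective K x
      rw [isOfFinOrder_iff_zpow_eq_one]
      refine ⟨L, hL0, ?_⟩
      rw [← map_zpow]
      exact (QuotientGroup.eq_one_iff _).2 ⟨a, rfl⟩
    exact Subgroup.finiteIndex_of_finite_quotient
  have hmemN : ∀ x, x ∈ K.map ι ↔ ∃ a, x = ι a ^ L := by
    intro x
    constructor
    · rintro ⟨_, ⟨a, rfl⟩, rfl⟩
      exact ⟨a, by simp⟩
    · rintro ⟨a, rfl⟩
      exact ⟨a ^ L, ⟨a, rfl⟩, by simp⟩
  have hcm : c ^ (k0 * M * t) = ι b0 ^ L := by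
    rw [← map_zpow, hb1, map_pow, ha0, ← pow_mul]
    congr 1; ring
  have hle : K.map ι ≤ ι.range := by
    rintro x ⟨a, -, rfl⟩
    exact ⟨a, rfl⟩
  let inv : K.map ι →* A := (ι.ofInjective hι).symm.toMonoidHom.comp (Subgroup.inclusion hle)
  have hinv : ∀ x : K.map ι, ι (inv x) = x := by
    intro x
    have h1 := (ι.ofInjective hι).apply_symm_apply (Subgroup.inclusion hle x)
    have h2 := congrArg Subtype.val h1
    exact h2
  have hinvL : ∀ a : A, ∀ h : ι a ^ L ∈ K.map ι, inv ⟨ι a ^ L, h⟩ = a ^ L := by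
    intro a h
    apply hι
    rw [hinv, map_zpow]
  refine ⟨K.map ι, ⟨?_⟩, ⟨?_⟩, ?_, ?_, ?_, n,
    fun k => (lin (Pi.single k 1)).comp (v.comp inv) / ((zpowGroupHom (w k)).comp ((lin b).comp (v.comp inv))),
    (lin b).comp (v.comp inv), ?_, ?_, ?_⟩
  · intro x hx g
    rw [hmemN] at hx ⊢
    obtain ⟨a, rfl⟩ := hx
    obtain ⟨a', ha'⟩ : g * ι a * g⁻¹ ∈ ι.range := hn.conj_mem _ ⟨a, rfl⟩ g
    refine ⟨a', ?_⟩
    rw [ha', conj_zpow]
  · rw [Subgroup.index_map_of_injective _ hι]
    exact mul_ne_zero hKfi.index_ne_zero hfi.index_ne_zero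
  · intro x y
    apply Subtype.ext
    rw [Subgroup.coe_mul, Subgroup.coe_mul, ← hinv x, ← hinv y, ← map_mul ι, ← map_mul ι, mul_comm (inv x)]
  · rw [hmemN]; exact ⟨b0, hcm⟩
  · intro x hx i j hi hij
    rw [hmemN] at hx
    obtain ⟨a, rfl⟩ := hx
    -- compare coordinates
    have h1 : ι a ^ (L * i * (k0 * M * t : ℕ)) = ι b0 ^ (L * j) := by
      have h2 : ι a ^ (L * i) = c ^ j := by rw [zpow_mul]; exact hij
      rw [zpow_mul, h2, ← zpow_mul, mul_comm, zpow_mul, zpow_natCast, hcm, ← zpow_mul]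
    rw [← map_zpow, ← map_zpow] at h1
    have h3 := congrArg Multiplicative.toAdd (congrArg v (hι h1))
    rw [map_zpow v, map_zpow v, hb0, toAdd_zpow, ← ofAdd_zsmul, toAdd_ofAdd] at h3
    set m : ℤ := ((k0 * M * t : ℕ) : ℤ) with hmdef
    have hm0 : m ≠ 0 := by rw [hmdef]; exact_mod_cast hm.ne'
    have h4 : (i * m) • Multiplicative.toAdd (v a) = j • w := by
      funext k
      have := congrFun h3 k
      simp only [Pi.smul_apply, smul_eq_mul] at this ⊢
      apply mul_left_cancel₀ hL0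
      linear_combination this
    set T : ℤ := ∑ k, b k * Multiplicative.toAdd (v a) k with hTdef
    have h5 : i * m * T = j := by
      rw [hTdef, Finset.mul_sum]
      calc ∑ k, i * m * (b k * Multiplicative.toAdd (v a) k) = ∑ k, b k * (j * w k) := by
            apply Finset.sum_congr rfl
            intro k _
            have := congrFun h4 k
            simp only [Pi.smul_apply, smul_eq_mul] at this
            rw [← this]; ring
        _ = j * ∑ k, b k * w k := by
            rw [Finset.mul_sum]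
            apply Finset.sum_congr rfl
            intro k _; ring
        _ = j := by rw [hb, mul_one]
    have h6 : Multiplicative.toAdd (v a) = T • w := by
      funext k
      have := congrFun h4 k
      simp only [Pi.smul_apply, smul_eq_mul] at this ⊢
      apply mul_left_cancel₀ (mul_ne_zero hi hm0)
      rw [this, ← h5]; ring
    have h7 : v (a * (b0 ^ T)⁻¹) = 1 := by
      rw [map_mul, map_inv, map_zpow, hb0, mul_inv_eq_one, ← ofAdd_zsmul, ← h6]; rfl
    have h8 := hT _ h7
    have h9 : a ^ M = b0 ^ (T * M) := by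
      rw [mul_pow, inv_pow, mul_inv_eq_one, ← zpow_natCast (b0 ^ T), ← zpow_mul] at h8
      exact h8
    rw [Subgroup.mem_zpowers_iff]
    refine ⟨T, ?_⟩
    rw [hcm, ← map_zpow, ← map_zpow, ← map_zpow]
    congr 1
    rw [hL, mul_comm e, zpow_mul a, zpow_natCast a, h9, ← zpow_mul, ← zpow_mul]
    congr 1; ring
  · intro k
    have e1 : inv ⟨c ^ (k0 * M * t), by rw [hmemN]; exact ⟨b0, hcm⟩⟩ = b0 ^ L := by
      apply hι
      rw [hinv, map_zpow]; exact hcm
    show (lin (Pi.single k 1)) (v (inv _)) / (lin b (v (inv _))) ^ (w k) = 1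
    rw [e1, map_zpow, hb0, map_zpow, map_zpow]
    have e2 : lin b (Multiplicative.ofAdd w) = Multiplicative.ofAdd 1 := by
      show Multiplicative.ofAdd (∑ i, b i * w i) = _
      rw [hb]
    have e3 : lin (Pi.single k 1) (Multiplicative.ofAdd w) = Multiplicative.ofAdd (w k) := by
      show Multiplicative.ofAdd (∑ i, (Pi.single k 1 : Fin n → ℤ) i * w i) = _
      congr 1
      rw [Finset.sum_eq_single k]
      · simp
      · intro i _ hik; simp [hik]
      · intro h; exact absurd (Finset.mem_univ k) h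
    have e4 : Multiplicative.ofAdd (w k) = (Multiplicative.ofAdd (1 : ℤ)) ^ (w k) := by
      rw [← ofAdd_zsmul, smul_eq_mul, mul_one]
    rw [e2, e3, e4, ← zpow_mul, ← zpow_mul (Multiplicative.ofAdd (1 : ℤ)) L, mul_comm L, div_self']
  · have e1 : inv ⟨c ^ (k0 * M * t), by rw [hmemN]; exact ⟨b0, hcm⟩⟩ = b0 ^ L := by
      apply hι
      rw [hinv, map_zpow]; exact hcm
    show (lin b) (v (inv _)) ≠ 1
    rw [e1, map_zpow, hb0, map_zpow]
    have e2 : lin b (Multiplicative.ofAdd w) = Multiplicative.ofAdd 1 := by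
      show Multiplicative.ofAdd (∑ i, b i * w i) = _
      rw [hb]
    rw [e2, ← ofAdd_zsmul]
    intro h
    have h2 : L • (1 : ℤ) = 0 := h
    rw [smul_eq_mul, mul_one] at h2
    exact hL0 h2
  · intro x hg hfs
    have h1 : (lin b) (v (inv x)) = 1 := hfs
    have h2 : v (inv x) = 1 := by
      apply Multiplicative.toAdd.injective
      funext k
      have h3 : (lin (Pi.single k 1)) (v (inv x)) / (lin b (v (inv x))) ^ (w k) = 1 := hg k
      rw [h1, one_zpow, div_one] at h3
      have h4 : ∑ i, (Pi.single k 1 : Fin n → ℤ) i * (Multiplicative.toAdd (v (inv x))) i = 0 := h3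
      rw [Finset.sum_eq_single k] at h4
      · simpa using h4
      · intro i _ hik; simp [hik]
      · intro h; exact absurd (Finset.mem_univ k) h
    obtain ⟨a, ha⟩ := (hmemN x).1 x.2
    have h5 : inv x = a ^ L := by
      apply hι
      rw [hinv, map_zpow]; exact ha
    have h6 : v a = 1 := by
      rw [h5, map_zpow] at h2
      have h7 : L • Multiplicative.toAdd (v a) = 0 := h2
      rcases smul_eq_zero.1 h7 with h8 | h8
      · exact absurd h8 hL0
      · exact h8
    have h7 := hT a h6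
    apply Subtype.ext
    rw [ha, hL, mul_comm e, zpow_mul, zpow_natCast, ← map_pow, h7]
    simp

end Q31VA
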