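import Mathlib
import Pool.Agent.Q31.VA.C
set_option autoImplicit false

/-! The main construction for an infinite amalgamated subgroup. -/

namespace Q31VA

universe u

/-- A group is virtually abelian if it has an abelian subgroup of finite index. -/
def VirtuallyAbelian (G : Type u) [Group G] : Prop :=
  ∃ A : Subgroup G, A.FiniteIndex ∧ ∀ x ∈ A, ∀ y ∈ A, x * y = y * x

/-- A group is virtually cyclic if it has a cyclic subgroup of finite index. -/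
def VirtuallyCyclic (G : Type u) [Group G] : Prop :=
  ∃ C : Subgroup G, C.FiniteIndex ∧ IsCyclic C

theorem fi_comap {H K : Type u} [Group H] [Group K] (f : H →* K) (A : Subgroup K) [A.FiniteIndex] :
    (A.comap f).FiniteIndex := by
  constructor
  rw [Subgroup.index_comap]
  exact (inferInstance : (A.subgroupOf f.range).FiniteIndex).index_ne_zero

theorem va_of_injective {H K : Type u} [Group H] [Group K] (f : H →* K) (hf : Function.Injective f)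
    (h : VirtuallyAbelian K) : VirtuallyAbelian H := by
  obtain ⟨A, h1, h2⟩ := h
  refine ⟨A.comap f, fi_comap f A, ?_⟩
  intro x hx y hy
  apply hf
  rw [map_mul, map_mul, h2 _ hx _ hy]

theorem vc_of_injective {H K : Type u} [Group H] [Group K] (f : H →* K) (hf : Function.Injective f)
    (h : VirtuallyCyclic K) : VirtuallyCyclic H := by
  obtain ⟨C, h1, h2⟩ := h
  refine ⟨C.comap f, fi_comap f C, ?_⟩
  exact isCyclic_of_injective (f.subgroupComap C) (fun x y h => Subtype.ext (hf (congrArg Subtype.val h)))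

section ambient
variable (X W : Type u)

/-- the shift -/
def sh (q : ℤ) (z : X × W × ℤ) : X × W × ℤ := (z.1, z.2.1, z.2.2 + q)

/-- permutations commuting with the shifts -/
def EE : Subgroup (Equiv.Perm (X × W × ℤ)) where
  carrier := {σ | ∀ q z, σ (sh X W q z) = sh X W q (σ z)}
  one_mem' := fun _ _ => rfl
  mul_mem' := by
    intro a b ha hb q z
    show a (b (sh X W q z)) = sh X W q (a (b z))
    rw [hb, ha]
  inv_mem' := by
    intro a ha q z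
    apply a.injective
    have h1 : ∀ y, a (a⁻¹ y) = y := fun y => a.apply_symm_apply y
    rw [h1, ha, h1]

variable {X W}

/-- the translations -/
def UU : Subgroup (EE X W) where
  carrier := {σ | ∀ x w q, ((σ : Equiv.Perm (X × W × ℤ)) (x, w, q)).1 = x ∧
    ((σ : Equiv.Perm (X × W × ℤ)) (x, w, q)).2.1 = w}
  one_mem' := fun _ _ _ => ⟨rfl, rfl⟩
  mul_mem' := by
    intro a b ha hb x w q
    obtain ⟨h1, h2⟩ := hb x w q
    obtain ⟨h3, h4⟩ := ha ((b : Equiv.Perm (X × W × ℤ)) (x, w, q)).1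
      ((b : Equiv.Perm (X × W × ℤ)) (x, w, q)).2.1 ((b : Equiv.Perm (X × W × ℤ)) (x, w, q)).2.2
    exact ⟨h3.trans h1, h4.trans h2⟩
  inv_mem' := by
    intro a ha x w q
    set z := ((a⁻¹ : EE X W) : Equiv.Perm (X × W × ℤ)) (x, w, q) with hz
    have h1 : (a : Equiv.Perm (X × W × ℤ)) z = (x, w, q) :=
      (a : Equiv.Perm (X × W × ℤ)).apply_symm_apply _
    obtain ⟨h2, h3⟩ := ha z.1 z.2.1 z.2.2
    have h4 : (z.1, z.2.1, z.2.2) = z := rfl
    rw [h4, h1] at h2 h3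
    exact ⟨h2.symm, h3.symm⟩

theorem EE_apply (σ : EE X W) (x : X) (w : W) (q : ℤ) :
    (σ : Equiv.Perm (X × W × ℤ)) (x, w, q) =
      sh X W q ((σ : Equiv.Perm (X × W × ℤ)) (x, w, 0)) := by
  have := σ.2 q (x, w, 0)
  rw [← this]
  simp [sh]

theorem UU_comm (a b : EE X W) (ha : a ∈ UU) (hb : b ∈ UU) : a * b = b * a := by
  apply Subtype.ext
  ext1 ⟨x, w, q⟩
  show (a : Equiv.Perm (X × W × ℤ)) ((b : Equiv.Perm (X × W × ℤ)) (x, w, q)) =
    (b : Equiv.Perm (X × W × ℤ)) ((a : Equiv.Perm (X × W × ℤ)) (x, w, q))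
  have key : ∀ c : EE X W, c ∈ UU → ∀ q, (c : Equiv.Perm (X × W × ℤ)) (x, w, q) =
      (x, w, ((c : Equiv.Perm (X × W × ℤ)) (x, w, 0)).2.2 + q) := by
    intro c hc q
    rw [EE_apply]
    obtain ⟨h1, h2⟩ := hc x w 0
    simp only [sh]
    rw [h1, h2]
  obtain ⟨α, ka⟩ : ∃ α, ∀ q, (a : Equiv.Perm (X × W × ℤ)) (x, w, q) = (x, w, α + q) := ⟨_, key a ha⟩
  obtain ⟨β, kb⟩ : ∃ β, ∀ q, (b : Equiv.Perm (X × W × ℤ)) (x, w, q) = (x, w, β + q) := ⟨_, key b hb⟩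
  rw [kb q, ka q, ka (β + q), kb (α + q)]
  congr 2
  ring

theorem EE_va [Finite X] [Finite W] : VirtuallyAbelian (EE X W) := by
  refine ⟨UU, ?_, fun a ha b hb => UU_comm a b ha hb⟩
  apply fi_crit (X := X × W → X × W) UU (fun σ z => (((σ : Equiv.Perm (X × W × ℤ)) (z.1, z.2, 0)).1,
    ((σ : Equiv.Perm (X × W × ℤ)) (z.1, z.2, 0)).2.1))
  intro a b hab x w q
  have h := congrFun hab (x, w)
  simp only [Prod.mk.injEq] at h
  obtain ⟨h1, h2⟩ := h
  set y := (a : Equiv.Perm (X × W × ℤ)) (x, w, 0) with hy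
  set z := (b : Equiv.Perm (X × W × ℤ)) (x, w, 0) with hz
  have h3 : (b : Equiv.Perm (X × W × ℤ)) (x, w, q) =
      (a : Equiv.Perm (X × W × ℤ)) (x, w, z.2.2 + q - y.2.2) := by
    rw [EE_apply b, EE_apply a, ← hy, ← hz]
    simp only [sh]
    rw [h1, h2]
    congr 2
    ring
  have h4 : ((a⁻¹ * b : EE X W) : Equiv.Perm (X × W × ℤ)) (x, w, q) = (x, w, z.2.2 + q - y.2.2) := by
    show ((a : Equiv.Perm (X × W × ℤ))⁻¹) ((b : Equiv.Perm (X × W × ℤ)) (x, w, q)) = _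
    rw [h3]
    exact (a : Equiv.Perm (X × W × ℤ)).symm_apply_apply _
  rw [h4]
  exact ⟨rfl, rfl⟩

end ambient

theorem fin_RR {G₀ H : Type u} [Group G₀] [Group H] (i : G₀ →* H) (N : Subgroup H) [N.FiniteIndex] :
    Finite (RR i N) := by
  have : (MM i N).FiniteIndex := Subgroup.finiteIndex_of_le (le_sup_right : N ≤ i.range ⊔ N)
  exact Finite.of_equiv _ (QuotientGroup.quotientRightRelEquivQuotientLeftRel (MM i N)).symm

theorem mainT {G₀ G₁ G₂ : Type u} [Group G₀] [Group G₁] [Group G₂] (i₁ : G₀ →* G₁) (i₂ : G₀ →* G₂)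
    (hi₁ : Function.Injective i₁) (hi₂ : Function.Injective i₂) (c : G₀)
    (hc : ∀ m : ℤ, m ≠ 0 → c ^ m ≠ 1) (hc2 : ∀ h : G₀, ∃ i j : ℤ, i ≠ 0 ∧ h ^ i = c ^ j)
    (hfg₁ : Group.FG G₁) (hfg₂ : Group.FG G₂) (hva₁ : VirtuallyAbelian G₁) (hva₂ : VirtuallyAbelian G₂) :
    ∃ (E : Type u) (_ : Group E) (ν₁ : G₁ →* E) (ν₂ : G₂ →* E), VirtuallyAbelian E ∧
      (∀ h, ν₁ (i₁ h) = ν₂ (i₂ h)) ∧ Function.Injective ν₁ ∧ Function.Injective ν₂ ∧
      VirtuallyCyclic (ν₁.range ⊓ ν₂.range : Subgroup E) := by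
  -- lattices
  have lat : ∀ (G : Type u) [Group G], Group.FG G → VirtuallyAbelian G → ∀ (i : G₀ →* G),
      Function.Injective i → ∃ m₁ : ℕ, 0 < m₁ ∧ ∀ m : ℕ, 0 < m → m₁ ∣ m → ∃ N : Subgroup G,
      N.Normal ∧ N.FiniteIndex ∧ (∀ a b : N, a * b = b * a) ∧
      ∃ hD : (∀ h : G₀, i h ∈ N ↔ h ∈ Subgroup.zpowers (c ^ m)),
      ∃ (n : ℕ) (g : Fin n → (N →* Multiplicative ℤ)) (fs : N →* Multiplicative ℤ),
        (∀ k, g k ⟨i (c ^ m), (hD _).2 (Subgroup.mem_zpowers _)⟩ = 1) ∧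
        fs ⟨i (c ^ m), (hD _).2 (Subgroup.mem_zpowers _)⟩ ≠ 1 ∧
        ∀ x, (∀ k, g k x = 1) → fs x = 1 → x = 1 := by
    intro G _ hfg hva i hi
    obtain ⟨A0, hA0, hA0c⟩ := hva
    have hA : A0.normalCore.FiniteIndex := inferInstance
    have hAfg : Group.FG A0.normalCore := Subgroup.fg_of_index_ne_zero (H := A0.normalCore)
    letI : CommGroup A0.normalCore :=
      { (inferInstance : Group A0.normalCore) with
        mul_comm := fun a b => Subtype.ext (hA0c _ (Subgroup.normalCore_le _ a.2) _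
          (Subgroup.normalCore_le _ b.2)) }
    obtain ⟨m₁, h1, h2⟩ := lattice G A0.normalCore A0.normalCore.subtype Subtype.val_injective
      (by rw [Subgroup.range_subtype]; infer_instance) (by rw [Subgroup.range_subtype]; exact hA)
      (i c) (by
        intro m hm h
        rw [← map_zpow] at h
        exact hc m hm (hi (h.trans (map_one i).symm)))
    refine ⟨m₁, h1, ?_⟩
    intro m hm hdvd
    obtain ⟨N, hN1, hN2, hN3, hm', hN4, n, g, fs, hg1, hg2, hg3⟩ := h2 m hm hdvd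
    have hD : ∀ h : G₀, i h ∈ N ↔ h ∈ Subgroup.zpowers (c ^ m) := by
      intro h
      constructor
      · intro hh
        obtain ⟨a, b, ha, hab⟩ := hc2 h
        have := hN4 _ hh a b ha (by rw [← map_zpow, hab, map_zpow])
        obtain ⟨t, ht⟩ := Subgroup.mem_zpowers_iff.1 this
        rw [Subgroup.mem_zpowers_iff]
        refine ⟨t, hi ?_⟩
        rw [map_zpow, map_pow, ht]
      · intro hh
        obtain ⟨t, rfl⟩ := Subgroup.mem_zpowers_iff.1 hh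
        rw [map_zpow, map_pow]
        exact N.zpow_mem hm' t
    have e : (⟨i (c ^ m), (hD _).2 (Subgroup.mem_zpowers _)⟩ : N) = ⟨(i c) ^ m, hm'⟩ :=
      Subtype.ext (map_pow i c m)
    refine ⟨N, hN1, hN2, hN3, hD, n, g, fs, ?_, ?_, hg3⟩
    · intro k; rw [e]; exact hg1 k
    · rw [e]; exact hg2
  obtain ⟨m₁, hm₁, H₁⟩ := lat G₁ hfg₁ hva₁ i₁ hi₁
  obtain ⟨m₂, hm₂, H₂⟩ := lat G₂ hfg₂ hva₂ i₂ hi₂
  set m := m₁ * m₂ with hm
  have hm0 : 0 < m := Nat.mul_pos hm₁ hm₂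
  obtain ⟨N₁, hN₁, hf₁, hco₁, hD₁, n₁, g₁, fs₁, a₁, b₁, c₁⟩ := H₁ m hm0 (Dvd.intro _ rfl)
  obtain ⟨N₂, hN₂, hf₂, hco₂, hD₂, n₂, g₂, fs₂, a₂, b₂, c₂⟩ := H₂ m hm0 (Dvd.intro_left _ rfl)
  set d := c ^ m with hd
  have hd0 : ∀ k : ℤ, k ≠ 0 → d ^ k ≠ 1 := by
    intro k hk
    rw [hd, ← zpow_natCast, ← zpow_mul]
    exact hc _ (mul_ne_zero (by exact_mod_cast hm0.ne') hk)
  have hDn : (Subgroup.zpowers d).Normal := by
    have : Subgroup.zpowers d = N₁.comap i₁ := by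
      ext h; exact (hD₁ h).symm
    rw [this]; infer_instance
  let J : Type u := ULift.{u} (Option (Fin n₁ ⊕ Fin n₂))
  let f₁ : J → (N₁ →* Multiplicative ℤ) := fun j => match j.down with
    | none => fs₁
    | some (Sum.inl k) => g₁ k
    | some (Sum.inr _) => fs₁
  let f₂ : J → (N₂ →* Multiplicative ℤ) := fun j => match j.down with
    | none => fs₂
    | some (Sum.inl _) => fs₂
    | some (Sum.inr k) => g₂ k
  have hR₁ : Finite (RR i₁ N₁) := fin_RR i₁ N₁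
  have hR₂ : Finite (RR i₂ N₂) := fin_RR i₂ N₂
  have hP : Finite (PP0 d) := by
    have : (Subgroup.zpowers d).FiniteIndex := by
      have : Subgroup.zpowers d = N₁.comap i₁ := by
        ext h; exact (hD₁ h).symm
      rw [this]; exact fi_comap i₁ N₁
    exact Subgroup.finite_quotient_of_finiteIndex
  set μ₁ := nu₁ i₁ i₂ d N₁ N₂ hD₁ hD₂ f₁ f₂ with hμ₁
  set μ₂ := nu₂ i₁ i₂ d N₁ N₂ hD₁ hD₂ f₁ f₂ with hμ₂
  have key₁ : ∀ g, μ₁ g ∈ EE (PP0 d × RR i₁ N₁) (J × RR i₂ N₂) := by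
    rintro g q ⟨x, ⟨j, r⟩, q'⟩
    obtain ⟨x', n, h⟩ := exists_smul (tau i₁ _ N₁ hD₁) (tau_mul i₁ _ N₁ hD₁) g x
    rw [tau_apply, tau_apply] at h
    simp only [Subgroup.coe_one, mul_one] at h
    simp only [sh]
    rw [nu₁_apply i₁ i₂ d N₁ N₂ hD₁ hD₂ f₁ f₂ h, nu₁_apply i₁ i₂ d N₁ N₂ hD₁ hD₂ f₁ f₂ h]
    congr 2
    ring
  have key₂ : ∀ g, μ₂ g ∈ EE (PP0 d × RR i₁ N₁) (J × RR i₂ N₂) := by
    rintro g q ⟨⟨p, s⟩, ⟨j, r⟩, q'⟩
    obtain ⟨⟨p', r'⟩, n, h⟩ := exists_smul (tau i₂ _ N₂ hD₂) (tau_mul i₂ _ N₂ hD₂) g (p, r)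
    rw [tau_apply, tau_apply] at h
    simp only [Subgroup.coe_one, mul_one] at h
    simp only [sh]
    rw [nu₂_apply i₁ i₂ d N₁ N₂ hD₁ hD₂ f₁ f₂ h, nu₂_apply i₁ i₂ d N₁ N₂ hD₁ hD₂ f₁ f₂ h]
    congr 2
    ring
  -- base points
  obtain ⟨p₁, hp₁⟩ := exists_base i₁ (Subgroup.zpowers d) N₁ hD₁
  obtain ⟨p₂, hp₂⟩ := exists_base i₂ (Subgroup.zpowers d) N₂ hD₂
  have act₁ : ∀ (n : N₁) (j : J) (r : RR i₂ N₂) (q : ℤ), μ₁ n ((p₁, r0 i₁ N₁), (j, r), q) =
      ((p₁, r0 i₁ N₁), (j, r), q + wt d i₂ N₂ hD₂ f₂ j r * Multiplicative.toAdd (f₁ j n)) := by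
    intro n j r q
    apply nu₁_apply i₁ i₂ d N₁ N₂ hD₁ hD₂ f₁ f₂
    exact congrArg Subtype.val (hco₁ n ⟨_, hp₁⟩)
  have act₂ : ∀ (n : N₂) (j : J) (s : RR i₁ N₁) (q : ℤ), μ₂ n ((p₂, s), (j, r0 i₂ N₂), q) =
      ((p₂, s), (j, r0 i₂ N₂), q + wt d i₁ N₁ hD₁ f₁ j s * Multiplicative.toAdd (f₂ j n)) := by
    intro n j s q
    apply nu₂_apply i₁ i₂ d N₁ N₂ hD₁ hD₂ f₁ f₂
    exact congrArg Subtype.val (hco₂ n ⟨_, hp₂⟩)
  have act₁' : ∀ (n : N₁) (x : PP0 d × RR i₁ N₁) (j : J) (r : RR i₂ N₂) (q : ℤ),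
      wt d i₂ N₂ hD₂ f₂ j r = 0 → μ₁ n (x, (j, r), q) = (x, (j, r), q) := by
    intro n x j r q hw
    rw [hμ₁, nu₁_apply i₁ i₂ d N₁ N₂ hD₁ hD₂ f₁ f₂ (conj_eq d i₁ N₁ x n), hw, zero_mul, add_zero]
  have w₁ := fun j => wt_base d i₁ N₁ hD₁ hco₁ f₁ j hd0
  have w₂ := fun j => wt_base d i₂ N₂ hD₂ hco₂ f₂ j hd0
  have ker₁ : ∀ g, μ₁ g = 1 → g = 1 := by
    intro g hg
    have hgN : g ∈ N₁ := by
      obtain ⟨x', n, h⟩ := exists_smul (tau i₁ _ N₁ hD₁) (tau_mul i₁ _ N₁ hD₁) g (p₁, r0 i₁ N₁)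
      rw [tau_apply, tau_apply] at h
      simp only [Subgroup.coe_one, mul_one] at h
      have h1 := nu₁_apply i₁ i₂ d N₁ N₂ hD₁ hD₂ f₁ f₂ h (ULift.up none) (r0 i₂ N₂) 0
      rw [← hμ₁, hg] at h1
      have h2 : (p₁, r0 i₁ N₁) = x' := congrArg Prod.fst h1
      rw [← h2] at h
      have h3 : g = sg i₁ _ N₁ (p₁, r0 i₁ N₁) * n * (sg i₁ _ N₁ (p₁, r0 i₁ N₁))⁻¹ := by
        rw [← h]; group
      rw [h3]
      exact hN₁.conj_mem _ n.2 _
    have h1 : ∀ j, f₂ j ⟨i₂ d, (hD₂ d).2 (Subgroup.mem_zpowers d)⟩ ≠ 1 → f₁ j ⟨g, hgN⟩ = 1 := by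
      intro j hj
      have h2 := act₁ ⟨g, hgN⟩ j (r0 i₂ N₂) 0
      rw [show μ₁ ((⟨g, hgN⟩ : N₁) : G₁) = 1 from hg] at h2
      have h3 : (0 : ℤ) = 0 + _ := congrArg (fun z => z.2.2) h2
      rw [zero_add] at h3
      rcases mul_eq_zero.1 h3.symm with h4 | h4
      · exact absurd h4 ((w₂ j).2 hj)
      · exact Multiplicative.toAdd.injective h4
    have h2 := c₁ ⟨g, hgN⟩ (fun k => h1 (ULift.up (some (Sum.inl k))) b₂) (h1 (ULift.up none) b₂)
    exact congrArg Subtype.val h2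
  have ker₂ : ∀ g, μ₂ g = 1 → g = 1 := by
    intro g hg
    have hgN : g ∈ N₂ := by
      obtain ⟨⟨p', r'⟩, n, h⟩ := exists_smul (tau i₂ _ N₂ hD₂) (tau_mul i₂ _ N₂ hD₂) g (p₂, r0 i₂ N₂)
      rw [tau_apply, tau_apply] at h
      simp only [Subgroup.coe_one, mul_one] at h
      have h1 := nu₂_apply i₁ i₂ d N₁ N₂ hD₁ hD₂ f₁ f₂ h (ULift.up none) (r0 i₁ N₁) 0
      rw [← hμ₂, hg] at h1
      have h2 : p₂ = p' := congrArg (fun z => z.1.1) h1
      have h2' : r0 i₂ N₂ = r' := congrArg (fun z => z.2.1.2) h1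
      rw [← h2, ← h2'] at h
      have h3 : g = sg i₂ _ N₂ (p₂, r0 i₂ N₂) * n * (sg i₂ _ N₂ (p₂, r0 i₂ N₂))⁻¹ := by
        rw [← h]; group
      rw [h3]
      exact hN₂.conj_mem _ n.2 _
    have h1 : ∀ j, f₁ j ⟨i₁ d, (hD₁ d).2 (Subgroup.mem_zpowers d)⟩ ≠ 1 → f₂ j ⟨g, hgN⟩ = 1 := by
      intro j hj
      have h2 := act₂ ⟨g, hgN⟩ j (r0 i₁ N₁) 0
      rw [show μ₂ ((⟨g, hgN⟩ : N₂) : G₂) = 1 from hg] at h2
      have h3 : (0 : ℤ) = 0 + _ := congrArg (fun z => z.2.2) h2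
      rw [zero_add] at h3
      rcases mul_eq_zero.1 h3.symm with h4 | h4
      · exact absurd h4 ((w₁ j).2 hj)
      · exact Multiplicative.toAdd.injective h4
    have h2 := c₂ ⟨g, hgN⟩ (fun k => h1 (ULift.up (some (Sum.inr k))) b₁) (h1 (ULift.up none) b₁)
    exact congrArg Subtype.val h2
  have inter : ∀ (x : N₁) (y : N₂), μ₁ x = μ₂ y → ∀ k, g₂ k y = 1 := by
    intro x y hxy k
    set j : J := ULift.up (some (Sum.inr k)) with hj
    have hw0 : wt d i₂ N₂ hD₂ f₂ j (r0 i₂ N₂) = 0 := (w₂ j).1 (a₂ k)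
    have h1 := act₁' x (p₂, r0 i₁ N₁) j (r0 i₂ N₂) 0 hw0
    rw [hxy, act₂ y j (r0 i₁ N₁) 0] at h1
    have h3 : 0 + _ = (0 : ℤ) := congrArg (fun z => z.2.2) h1
    rw [zero_add] at h3
    rcases mul_eq_zero.1 h3 with h4 | h4
    · exact absurd h4 ((w₁ j).2 b₁)
    · exact Multiplicative.toAdd.injective h4
  -- the target
  let E := EE (PP0 d × RR i₁ N₁) (J × RR i₂ N₂)
  let ν₁ : G₁ →* E := μ₁.codRestrict E key₁
  let ν₂ : G₂ →* E := μ₂.codRestrict E key₂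
  have i₁' : Function.Injective ν₁ := by
    rw [injective_iff_map_eq_one]
    intro g hg
    exact ker₁ g (congrArg Subtype.val hg)
  have i₂' : Function.Injective ν₂ := by
    rw [injective_iff_map_eq_one]
    intro g hg
    exact ker₂ g (congrArg Subtype.val hg)
  refine ⟨E, inferInstance, ν₁, ν₂, EE_va, ?_, i₁', i₂', ?_⟩
  · intro h
    apply Subtype.ext
    exact nu_compat i₁ i₂ d N₁ N₂ hD₁ hD₂ f₁ f₂ h
  · -- the intersection
    let K : Subgroup N₂ := ⨅ k, (g₂ k).ker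
    have hK : IsCyclic K := by
      apply isCyclic_of_injective (fs₂.comp K.subtype)
      rw [injective_iff_map_eq_one]
      intro y hy
      apply Subtype.ext
      apply c₂ _ _ hy
      intro k
      have := y.2
      rw [Subgroup.mem_iInf] at this
      exact this k
    let I : Subgroup E := ν₁.range ⊓ ν₂.range
    let C0 : Subgroup E := (N₁.map ν₁) ⊓ (N₂.map ν₂)
    refine ⟨C0.subgroupOf I, ?_, ?_⟩
    · have hq₁ : Finite (G₁ ⧸ N₁) := inferInstance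
      have hq₂ : Finite (G₂ ⧸ N₂) := inferInstance
      have ex₁ : ∀ x : I, ∃ g, ν₁ g = x := fun x => x.2.1
      have ex₂ : ∀ x : I, ∃ g, ν₂ g = x := fun x => x.2.2
      choose l₁ hl₁ using ex₁
      choose l₂ hl₂ using ex₂
      apply fi_crit (X := (G₁ ⧸ N₁) × (G₂ ⧸ N₂)) _
        (fun x => (QuotientGroup.mk (l₁ x), QuotientGroup.mk (l₂ x)))
      intro x y hxy
      simp only [Prod.mk.injEq] at hxy
      obtain ⟨h1, h2⟩ := hxy
      rw [QuotientGroup.eq] at h1 h2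
      rw [Subgroup.mem_subgroupOf]
      refine ⟨⟨_, h1, ?_⟩, ⟨_, h2, ?_⟩⟩
      · rw [map_mul, map_inv, hl₁, hl₁]; rfl
      · rw [map_mul, map_inv, hl₂, hl₂]; rfl
    · -- cyclic
      have h1 : IsCyclic ((K.map N₂.subtype).map ν₂) := by
        have : IsCyclic (K.map N₂.subtype) := by
          have e := K.equivMapOfInjective N₂.subtype Subtype.val_injective
          exact isCyclic_of_surjective e e.surjective
        have e := (K.map N₂.subtype).equivMapOfInjective ν₂ i₂'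
        exact isCyclic_of_surjective e e.surjective
      have h2 : C0 ≤ (K.map N₂.subtype).map ν₂ := by
        rintro z ⟨⟨x, hx, h3⟩, ⟨y, hy, h4⟩⟩
        refine ⟨y, ⟨⟨y, hy⟩, ?_, rfl⟩, h4⟩
        show (⟨y, hy⟩ : N₂) ∈ K
        rw [Subgroup.mem_iInf]
        intro k
        apply inter ⟨x, hx⟩ ⟨y, hy⟩
        have := h3.trans h4.symm
        exact congrArg Subtype.val this
      have h3 : ∀ z : C0.subgroupOf I, (z : I) ∈ ((K.map N₂.subtype).map ν₂).comap I.subtype :=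
        fun z => h2 z.2
      let φ : C0.subgroupOf I →* ((K.map N₂.subtype).map ν₂) :=
        { toFun := fun z => ⟨((z : I) : E), h3 z⟩
          map_one' := rfl
          map_mul' := fun _ _ => rfl }
      apply isCyclic_of_injective φ
      intro x y hxy
      apply Subtype.ext
      apply Subtype.ext
      have h4 := congrArg (fun z : ((K.map N₂.subtype).map ν₂ : Subgroup E) => (z : E)) hxy
      exact h4

end Q31VA
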