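import Mathlib
import Pool.Agent.Q31.VA.D
set_option autoImplicit false

/-! The general case. -/

namespace Q31VA

universe u

theorem fg_prod_int (G : Type u) [Group G] (h : Group.FG G) : Group.FG (G × Multiplicative ℤ) :=
  inferInstance

theorem va_prod_int (G : Type u) [Group G] (h : VirtuallyAbelian G) :
    VirtuallyAbelian (G × Multiplicative ℤ) := by
  obtain ⟨A, h1, h2⟩ := h
  refine ⟨A.comap (MonoidHom.fst _ _), fi_comap _ _, ?_⟩
  rintro ⟨x, z⟩ hx ⟨y, w⟩ hy
  rw [Prod.mk_mul_mk, Prod.mk_mul_mk, h2 x hx y hy, mul_comm z]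

theorem mainAll {G₀ G₁ G₂ : Type u} [Group G₀] [Group G₁] [Group G₂] (i₁ : G₀ →* G₁) (i₂ : G₀ →* G₂)
    (hi₁ : Function.Injective i₁) (hi₂ : Function.Injective i₂) (hvc : VirtuallyCyclic G₀)
    (hfg₁ : Group.FG G₁) (hfg₂ : Group.FG G₂) (hva₁ : VirtuallyAbelian G₁) (hva₂ : VirtuallyAbelian G₂) :
    ∃ (E : Type u) (_ : Group E) (ν₁ : G₁ →* E) (ν₂ : G₂ →* E), VirtuallyAbelian E ∧
      (∀ h, ν₁ (i₁ h) = ν₂ (i₂ h)) ∧ Function.Injective ν₁ ∧ Function.Injective ν₂ ∧
      VirtuallyCyclic (ν₁.range ⊓ ν₂.range : Subgroup E) := by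
  rcases finite_or_infinite G₀ with hfin | hinf
  · -- finite case
    let j₁ : G₀ × Multiplicative ℤ →* G₁ × Multiplicative ℤ := i₁.prodMap (MonoidHom.id _)
    let j₂ : G₀ × Multiplicative ℤ →* G₂ × Multiplicative ℤ := i₂.prodMap (MonoidHom.id _)
    have hj₁ : Function.Injective j₁ := by
      rintro ⟨x, z⟩ ⟨y, w⟩ h
      have h1 : i₁ x = i₁ y := congrArg Prod.fst h
      have h2 : z = w := congrArg Prod.snd h
      rw [hi₁ h1, h2]
    have hj₂ : Function.Injective j₂ := by
      rintro ⟨x, z⟩ ⟨y, w⟩ h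
      have h1 : i₂ x = i₂ y := congrArg Prod.fst h
      have h2 : z = w := congrArg Prod.snd h
      rw [hi₂ h1, h2]
    obtain ⟨E, hE, ν₁, ν₂, h1, h2, h3, h4, h5⟩ := mainT j₁ j₂ hj₁ hj₂ (1, Multiplicative.ofAdd 1)
      (by
        intro m hm h
        have h1 := congrArg (fun z => Multiplicative.toAdd z.2) h
        simp at h1
        exact hm h1)
      (by
        rintro ⟨h, z⟩
        refine ⟨Nat.card G₀, (Nat.card G₀ : ℤ) * Multiplicative.toAdd z, by
          have : 0 < Nat.card G₀ := Nat.card_pos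
          exact_mod_cast this.ne', ?_⟩
        apply Prod.ext
        · simp
        · apply Multiplicative.toAdd.injective
          simp)
      (fg_prod_int _ hfg₁) (fg_prod_int _ hfg₂) (va_prod_int _ hva₁) (va_prod_int _ hva₂)
    refine ⟨E, hE, ν₁.comp (MonoidHom.inl _ _), ν₂.comp (MonoidHom.inl _ _), h1, ?_, ?_, ?_, ?_⟩
    · intro h
      have := h2 (h, 1)
      simpa [j₁, j₂] using this
    · intro x y h
      exact congrArg Prod.fst (h3 h)
    · intro x y h
      exact congrArg Prod.fst (h4 h)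
    · have hle : ((ν₁.comp (MonoidHom.inl _ _)).range ⊓ (ν₂.comp (MonoidHom.inl _ _)).range : Subgroup E) ≤
          ν₁.range ⊓ ν₂.range := by
        rintro x ⟨⟨a, ha⟩, ⟨b, hb⟩⟩
        exact ⟨⟨_, ha⟩, ⟨_, hb⟩⟩
      exact vc_of_injective (Subgroup.inclusion hle) (Subgroup.inclusion_injective hle) h5
  · obtain ⟨C, hC, hcyc⟩ := hvc
    obtain ⟨c, hc⟩ := hcyc.exists_generator
    have hCinf : Infinite C := by
      rw [← not_finite_iff_infinite]
      intro hf
      have h1 := C.card_mul_index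
      rw [Nat.card_eq_zero_of_infinite (α := G₀)] at h1
      rcases Nat.mul_eq_zero.1 h1 with h2 | h2
      · exact Nat.card_pos.ne' h2
      · exact hC.index_ne_zero h2
    refine mainT i₁ i₂ hi₁ hi₂ (c : G₀) ?_ ?_ hfg₁ hfg₂ hva₁ hva₂
    · intro m hm h
      have h1 : IsOfFinOrder c := by
        rw [isOfFinOrder_iff_zpow_eq_one]
        exact ⟨m, hm, Subtype.ext (by rw [Subgroup.coe_zpow]; exact h)⟩
      have h2 : (Subgroup.zpowers c : Set C).Finite := finite_zpowers.2 h1
      have h3 : (Set.univ : Set C).Finite := h2.subset (fun x _ => hc x)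
      exact Set.infinite_univ h3
    · intro h
      have h1 : h ^ C.normalCore.index ∈ C.normalCore := Subgroup.pow_index_mem _ _
      obtain ⟨j, hj⟩ := Subgroup.mem_zpowers_iff.1 (hc ⟨_, Subgroup.normalCore_le _ h1⟩)
      refine ⟨C.normalCore.index, j, ?_, ?_⟩
      · have : C.normalCore.FiniteIndex := inferInstance
        exact_mod_cast this.index_ne_zero
      · have := congrArg Subtype.val hj
        rw [Subgroup.coe_zpow] at this
        rw [zpow_natCast, this]

theorem fg_pushout {G : Fin 2 → Type u} {G₀ : Type u} [∀ i, Group (G i)] [Group G₀]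
    (φ : ∀ i, G₀ →* G i) (hfg : ∀ i, Group.FG (G i)) : Group.FG (Monoid.PushoutI φ) := by
  have h := fun i => Group.fg_iff.1 (hfg i)
  choose S hS1 hS2 using h
  rw [Group.fg_iff]
  refine ⟨⋃ i, (Monoid.PushoutI.of (φ := φ) i) '' (S i), ?_, Set.finite_iUnion fun i => (hS2 i).image _⟩
  rw [eq_top_iff]
  rintro x -
  have hof : ∀ (i : Fin 2) (g : G i), Monoid.PushoutI.of (φ := φ) i g ∈
      Subgroup.closure (⋃ i, (Monoid.PushoutI.of (φ := φ) i) '' (S i)) := by
    intro i g
    have hg : g ∈ Subgroup.closure (S i) := by rw [hS1]; trivial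
    induction hg using Subgroup.closure_induction with
    | mem x hx => exact Subgroup.subset_closure (Set.mem_iUnion.2 ⟨i, x, hx, rfl⟩)
    | one => rw [map_one]; exact Subgroup.one_mem _
    | mul x y _ _ hx hy => rw [map_mul]; exact Subgroup.mul_mem _ hx hy
    | inv x _ hx => rw [map_inv]; exact Subgroup.inv_mem _ hx
  induction x using Monoid.PushoutI.induction_on with
  | of i g => exact hof i g
  | base h =>
    rw [← Monoid.PushoutI.of_apply_eq_base φ 0]
    exact hof 0 _
  | mul x y hx hy => exact Subgroup.mul_mem _ hx hy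

theorem final {G : Fin 2 → Type u} {G₀ : Type u} [∀ i, Group (G i)] [Group G₀] (φ : ∀ i, G₀ →* G i)
    (hφ : ∀ i, Function.Injective (φ i)) (hfg : ∀ i, Group.FG (G i))
    (hva : ∀ i, VirtuallyAbelian (G i)) (h₀ : VirtuallyCyclic G₀) :
    ∃ (E : Type u) (_ : Group E) (ν : Monoid.PushoutI φ →* E), Group.FG E ∧ VirtuallyAbelian E ∧
      (∀ i, Function.Injective (ν.comp (Monoid.PushoutI.of i))) ∧
      VirtuallyCyclic ((ν.comp (Monoid.PushoutI.of 0)).range ⊓
        (ν.comp (Monoid.PushoutI.of 1)).range : Subgroup E) := by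
  obtain ⟨E, hE, ν₁, ν₂, h1, h2, h3, h4, h5⟩ := mainAll (φ 0) (φ 1) (hφ 0) (hφ 1) h₀ (hfg 0) (hfg 1)
    (hva 0) (hva 1)
  let f : ∀ i, G i →* E := Fin.cons ν₁ (Fin.cons ν₂ finZeroElim)
  have hf : ∀ i, (f i).comp (φ i) = ν₁.comp (φ 0) := by
    intro i
    fin_cases i
    · rfl
    · ext h; exact (h2 h).symm
  let ν : Monoid.PushoutI φ →* E := Monoid.PushoutI.lift f (ν₁.comp (φ 0)) hf
  have hν : ∀ i g, ν (Monoid.PushoutI.of i g) = f i g := fun i g => Monoid.PushoutI.lift_of f _ hf g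
  have hfgP : Group.FG (Monoid.PushoutI φ) := fg_pushout φ hfg
  refine ⟨ν.range, inferInstance, ν.rangeRestrict, ?_, ?_, ?_, ?_⟩
  · exact Group.fg_of_surjective ν.rangeRestrict_surjective
  · exact va_of_injective ν.range.subtype Subtype.val_injective h1
  · intro i x y h
    have h6 : ν (Monoid.PushoutI.of i x) = ν (Monoid.PushoutI.of i y) := congrArg Subtype.val h
    rw [hν, hν] at h6
    revert x y
    fin_cases i
    · intro x y _ h6; exact h3 h6
    · intro x y _ h6; exact h4 h6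
  · have key : ∀ z : ((ν.rangeRestrict.comp (Monoid.PushoutI.of 0)).range ⊓
        (ν.rangeRestrict.comp (Monoid.PushoutI.of 1)).range : Subgroup ν.range),
        ((z : ν.range) : E) ∈ ν₁.range ⊓ ν₂.range := by
      rintro ⟨z, ⟨a, ha⟩, ⟨b, hb⟩⟩
      refine ⟨⟨a, ?_⟩, ⟨b, ?_⟩⟩
      · have h6 : ν (Monoid.PushoutI.of 0 a) = z := congrArg Subtype.val ha
        rw [hν] at h6
        exact h6
      · have h6 : ν (Monoid.PushoutI.of 1 b) = z := congrArg Subtype.val hb
        rw [hν] at h6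
        exact h6
    refine vc_of_injective (K := (ν₁.range ⊓ ν₂.range : Subgroup E))
      { toFun := fun z => ⟨((z : ν.range) : E), key z⟩
        map_one' := rfl
        map_mul' := fun _ _ => rfl } ?_ h5
    intro x y h
    apply Subtype.ext
    apply Subtype.ext
    have h6 := congrArg (fun z : (ν₁.range ⊓ ν₂.range : Subgroup E) => (z : E)) h
    exact h6

end Q31VA
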